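import Pool.Agent.helper18.BC.Bits
import Pool.Agent.helper18.BC.Time
import Pool.Agent.helper42.LP.CookLevin

/-!
# MP_7a9dcc_lc: NP-hardness of the upper broadcast parameters
-/

set_option autoImplicit false

namespace Pool.Agent.Results.MP_7a9dcc_lc.UpperNPHard

open Pool.Agent.helper64.LP Pool.Agent.helper18.BC

/-- For every parameter `p` whose value on connected graphs with at least two vertices lies
between `Γ_b` and `IR_b` (both included), deciding `p(G) ≥ k` is NP-hard. -/
theorem result (p : ∀ n : ℕ, SimpleGraph (Fin n) → ℕ)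
    (hp : ∀ (n : ℕ) (G : SimpleGraph (Fin n)), 2 ≤ n → G.Connected →
      p n G ∈ Set.uIcc (GammaB G) (IRB G)) :
    NPHard (UpperLang p) := by
  intro A hA
  obtain ⟨U, a, b, c, d, h⟩ := cook_levin A hA
  obtain ⟨P, q, β, hβ⟩ := bits' U
  refine ⟨_, unaryMat_polyTime P q a b c d β, fun w => ?_⟩
  obtain ⟨hN, hg, hw⟩ := h w
  rw [hw, hβ p hp _ _ _ hN hg]

end Pool.Agent.Results.MP_7a9dcc_lc.UpperNPHard
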